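import Mathlib

/-!
# A residue that is never taken by binomial coefficients along an arithmetic progression

The question asks whether for all integers `a > b ≥ 1`, all integers `α, β`, every prime `p` with
`gcd(p, a) = 1` and every residue `r` there are infinitely many `n` with
`C(a n + α, b n + β) ≡ r (mod p)`.  The answer is no, even for `α = β = 0`: modulo `3` the binomial
coefficient `C(4n, 2n)` is never congruent to `2`.  (For the central binomial coefficient
`C(2m, m) ≡ 0` or `(-1)^m (mod 3)` by Lucas' theorem; here `m = 2n` is even.)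
-/

set_option autoImplicit false

namespace Pool.Agent.Results.MP_859259_nt.ResidueNeverTaken

/-- `C(2m, m)` is `0` or `(-1)^m` modulo `3`. -/
theorem central (m : ℕ) : (2 * m).choose m % 3 = 0 ∨ (2 * m).choose m % 3 = 1 + m % 2 := by
  induction m using Nat.strong_induction_on with
  | _ m ih =>
    have : Fact (Nat.Prime 3) := ⟨Nat.prime_three⟩
    have hL := @Choose.choose_modEq_choose_mod_mul_choose_div_nat (2 * m) m 3 _
    rcases Nat.eq_zero_or_pos m with rfl | hm
    · right; decide
    · have ih' := ih (m / 3) (Nat.div_lt_self hm (by norm_num))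
      have h3 : m % 3 < 3 := Nat.mod_lt _ (by norm_num)
      have hd := Nat.div_add_mod m 3
      set k := m / 3 with hk
      unfold Nat.ModEq at hL
      interval_cases h : m % 3
      · have e1 : 2 * m % 3 = 0 := by omega
        have e2 : 2 * m / 3 = 2 * k := by omega
        rw [e1, e2] at hL
        simp only [Nat.choose_self, one_mul] at hL
        rw [hL]
        have : m % 2 = k % 2 := by omega
        rw [this]; exact ih'
      · have e1 : 2 * m % 3 = 2 := by omega
        have e2 : 2 * m / 3 = 2 * k := by omega
        rw [e1, e2] at hL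
        have e3 : Nat.choose 2 1 = 2 := by decide
        rw [e3] at hL
        rw [hL]
        have hm2 : m % 2 = (k + 1) % 2 := by omega
        rw [hm2]
        generalize (2 * k).choose k = C at ih' ⊢
        rcases ih' with h0 | h0
        · left; omega
        · right
          rcases Nat.mod_two_eq_zero_or_one k with hk2 | hk2
          · have h5 : (k + 1) % 2 = 1 := by omega
            rw [hk2] at h0
            rw [h5]
            omega
          · have h5 : (k + 1) % 2 = 0 := by omega
            rw [hk2] at h0
            rw [h5]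
            omega
      · have e1 : 2 * m % 3 = 1 := by omega
        have e2 : 2 * m / 3 = 2 * k + 1 := by omega
        rw [e1, e2] at hL
        have e3 : Nat.choose 1 2 = 0 := by decide
        rw [e3] at hL
        left
        rw [hL]; simp

/-- **Q1 is false, already for `α = β = 0`.**  There are integers `a > b ≥ 1`, a prime `p` with
`gcd(p, a) = 1` and a residue `r < p` such that `C(a n, b n)` is not congruent to `r` modulo `p` for
any `n` at all (namely `a = 4`, `b = 2`, `p = 3`, `r = 2`).  Consequently the assertion that for all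
`a > b ≥ 1`, all integers `α, β`, every prime `p` not dividing `a` and every residue `r < p` there
are infinitely many positive `n` with `C(a n + α, b n + β) ≡ r (mod p)` is false. -/
theorem result :
    (∃ a b p r : ℕ, 0 < b ∧ b < a ∧ p.Prime ∧ Nat.gcd p a = 1 ∧ r < p ∧
      ∀ n : ℕ, (a * n).choose (b * n) % p ≠ r) ∧
    ¬ ∀ (a b : ℕ) (α β : ℤ) (p : ℕ), 0 < b → b < a → p.Prime → Nat.gcd p a = 1 → ∀ r < p,
      {n : ℕ | 0 < n ∧
        ((a : ℤ) * n + α).toNat.choose ((b : ℤ) * n + β).toNat % p = r}.Infinite := by
  have key : ∀ n : ℕ, (4 * n).choose (2 * n) % 3 ≠ 2 := by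
    intro n h
    have h1 := central (2 * n)
    have e : 2 * (2 * n) = 4 * n := by ring
    rw [e] at h1
    omega
  refine ⟨⟨4, 2, 3, 2, by norm_num, by norm_num, Nat.prime_three, by decide, by norm_num, key⟩, ?_⟩
  intro H
  have h := H 4 2 0 0 3 (by norm_num) (by norm_num) Nat.prime_three (by decide) 2 (by norm_num)
  obtain ⟨n, hn⟩ := h.nonempty
  obtain ⟨-, hn⟩ := hn
  apply key n
  have e1 : (((4 : ℕ) : ℤ) * (n : ℤ) + 0).toNat = 4 * n := by
    have : (((4 : ℕ) : ℤ) * (n : ℤ) + 0) = ((4 * n : ℕ) : ℤ) := by push_cast; ring
    rw [this, Int.toNat_natCast]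
  have e2 : (((2 : ℕ) : ℤ) * (n : ℤ) + 0).toNat = 2 * n := by
    have : (((2 : ℕ) : ℤ) * (n : ℤ) + 0) = ((2 * n : ℕ) : ℤ) := by push_cast; ring
    rw [this, Int.toNat_natCast]
  rw [e1, e2] at hn
  exact hn

end Pool.Agent.Results.MP_859259_nt.ResidueNeverTaken
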